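import Pool.Agent.H58.SO.Basic

/-!
# Several orbits of vertices (MP_6ab439_lc), row BLD: maps which depend only on the types at the
vertices whose types are in `D`
-/

set_option autoImplicit false

namespace Pool.Agent.H47.SO

open Pool.Agent.H68.BP Pool.Agent.H58.SF Pool.Agent.H53.GC Pool.Agent.H53.NR Pool.Agent.H58.SO
open Classical

section bld

variable {V X Θ : Type} {M : ℕ} [LinearOrder V]

/-- the data of a pair where the vertices whose types are in `D` are replaced by vertices at the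
bottom -/
noncomputable def ctD (B : Bs V X Θ M) (D : Set Θ) (idx : Θ → ℕ) (x y : V) : X × Ordering :=
  if B.vt x ∈ D then
    (if B.vt y ∈ D then (B.fr (B.vt x) (B.vt y), cmp (idx (B.vt x)) (idx (B.vt y)))
      else (B.fr (B.vt x) (B.vt y), Ordering.lt))
  else (if B.vt y ∈ D then (B.fr (B.vt x) (B.vt y), Ordering.gt) else B.ct x y)

theorem exists_g (hSYS : T_SYS) (B : Bs V X Θ M) (D : Set Θ) (idx : Θ → ℕ)
    (hidx : Function.Injective idx) (K : Finset V) :
    ∃ g : V → V, (∀ x ∈ K, B.vt (g x) = B.vt x) ∧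
      ∀ x ∈ K, ∀ y ∈ K, B.ct (g x) (g y) = ctD B D idx x y := by
  have hfT : Finite Θ := B.finT
  have hfD : Finite {j : ℕ // ∃ s ∈ D, idx s = j} := by
    have h1 : ({j : ℕ | ∃ s ∈ D, idx s = j} : Set ℕ) = idx '' D := rfl
    have h2 : ({j : ℕ | ∃ s ∈ D, idx s = j} : Set ℕ).Finite := by
      rw [h1]
      exact (Set.toFinite D).image idx
    exact h2.to_subtype
  have hfK : Finite {x : V // x ∈ K ∧ B.vt x ∉ D} :=
    Finite.of_injective (fun x : {x : V // x ∈ K ∧ B.vt x ∉ D} => (⟨x.1, x.2.1⟩ : K))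
      (fun a b h => Subtype.ext (congrArg (fun z : K => z.1) h))
  let W := {j : ℕ // ∃ s ∈ D, idx s = j} ⊕ₗ {x : V // x ∈ K ∧ B.vt x ∉ D}
  have hfW : Finite W := inferInstanceAs
    (Finite ({j : ℕ // ∃ s ∈ D, idx s = j} ⊕ {x : V // x ∈ K ∧ B.vt x ∉ D}))
  let u : W → V := fun n => Sum.elim (fun j => (B.surjT j.2.choose).choose) (fun x => x.1)
    (ofLex n)
  let r : W → W → Prop := fun n n' => (ofLex n).isRight ∧ (ofLex n').isRight
  obtain ⟨e, he1, he2, he3⟩ := hSYS V X Θ M B W u r (fun n n' h => ⟨h.2, h.1⟩)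
  have hl : ∀ (s : Θ) (hs : s ∈ D), B.vt (u (Sum.inlₗ ⟨idx s, s, hs, rfl⟩)) = s := by
    intro s hs
    have hex : ∃ s' ∈ D, idx s' = idx s := ⟨s, hs, rfl⟩
    have h1 : B.vt (B.surjT hex.choose).choose = hex.choose := (B.surjT hex.choose).choose_spec
    have h2 : hex.choose = s := hidx hex.choose_spec.2
    exact h1.trans h2
  have hr : ∀ (x : V) (hx : x ∈ K ∧ B.vt x ∉ D), u (Sum.inrₗ ⟨x, hx⟩) = x := fun x hx => rfl
  let g : V → V := fun x => if h : B.vt x ∈ D then e (Sum.inlₗ ⟨idx (B.vt x), B.vt x, h, rfl⟩)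
    else if h' : x ∈ K then e (Sum.inrₗ ⟨x, h', h⟩) else x
  have hg1 : ∀ x (h : B.vt x ∈ D), g x = e (Sum.inlₗ ⟨idx (B.vt x), B.vt x, h, rfl⟩) :=
    fun x h => dif_pos h
  have hg2 : ∀ x (h : B.vt x ∉ D) (h' : x ∈ K), g x = e (Sum.inrₗ ⟨x, h', h⟩) := by
    intro x h h'
    show (if h : B.vt x ∈ D then e (Sum.inlₗ ⟨idx (B.vt x), B.vt x, h, rfl⟩)
      else if h' : x ∈ K then e (Sum.inrₗ ⟨x, h', h⟩) else x) = _
    rw [dif_neg h, dif_pos h']
  have hvt : ∀ x ∈ K, B.vt (g x) = B.vt x := by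
    intro x hx
    by_cases h : B.vt x ∈ D
    · rw [hg1 x h, he2]
      exact hl _ h
    · rw [hg2 x h hx, he2, hr]
  refine ⟨g, hvt, ?_⟩
  intro x hx y hy
  unfold ctD
  by_cases h : B.vt x ∈ D
  · rw [if_pos h]
    by_cases h' : B.vt y ∈ D
    · rw [if_pos h', hg1 x h, hg1 y h']
      by_cases hxy : B.vt x = B.vt y
      · have h3 : (⟨idx (B.vt x), B.vt x, h, rfl⟩ : {j : ℕ // ∃ s ∈ D, idx s = j}) =
            ⟨idx (B.vt y), B.vt y, h', rfl⟩ := Subtype.ext (congrArg idx hxy)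
        rw [h3, B.ct_self, he2, hl _ h', hxy, cmp_self_eq_eq]
      · have h3 : (⟨idx (B.vt x), B.vt x, h, rfl⟩ : {j : ℕ // ∃ s ∈ D, idx s = j}) ≠
            ⟨idx (B.vt y), B.vt y, h', rfl⟩ := fun h4 =>
          hxy (hidx (congrArg (fun z : {j : ℕ // ∃ s ∈ D, idx s = j} => z.1) h4))
        have h5 : (Sum.inlₗ ⟨idx (B.vt x), B.vt x, h, rfl⟩ : W) ≠
            Sum.inlₗ ⟨idx (B.vt y), B.vt y, h', rfl⟩ := fun h6 => h3 (Sum.inl_injective h6)
        refine Prod.ext ?_ ?_
        · have h7 := (he3 _ _ h5).2 (fun h8 => by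
            have := h8.1.1
            exact absurd this (by exact Bool.false_ne_true))
          show B.c _ _ = _
          rw [h7, hl _ h, hl _ h']
        · show cmp _ _ = _
          rw [he1.cmp_map_eq, Sum.Lex.inl_strictMono.cmp_map_eq]
          rfl
    · rw [if_neg h', hg1 x h, hg2 y h' hy]
      have h5 : (Sum.inlₗ ⟨idx (B.vt x), B.vt x, h, rfl⟩ : W) < Sum.inrₗ ⟨y, hy, h'⟩ :=
        Sum.Lex.inl_lt_inr _ _
      refine Prod.ext ?_ ?_
      · have h7 := (he3 _ _ h5.ne).2 (fun h8 => by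
          have := h8.1.1
          exact absurd this (by exact Bool.false_ne_true))
        show B.c _ _ = _
        rw [h7, hl _ h, hr]
      · exact (B.ct_snd_lt _ _).2 (he1 h5)
  · rw [if_neg h]
    by_cases h' : B.vt y ∈ D
    · rw [if_pos h', hg2 x h hx, hg1 y h']
      have h5 : (Sum.inlₗ ⟨idx (B.vt y), B.vt y, h', rfl⟩ : W) < Sum.inrₗ ⟨x, hx, h⟩ :=
        Sum.Lex.inl_lt_inr _ _
      refine Prod.ext ?_ ?_
      · have h7 := (he3 _ _ h5.ne').2 (fun h8 => by
          have := h8.1.2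
          exact absurd this (by exact Bool.false_ne_true))
        show B.c _ _ = _
        rw [h7, hl _ h', hr]
      · exact (B.ct_snd_gt _ _).2 (he1 h5)
    · rw [if_neg h', hg2 x h hx, hg2 y h' hy]
      by_cases hxy : x = y
      · subst hxy
        rw [B.ct_self, B.ct_self, he2, hr]
      · have h5 : (Sum.inrₗ ⟨x, hx, h⟩ : W) ≠ Sum.inrₗ ⟨y, hy, h'⟩ := fun h6 =>
          hxy (congrArg (fun z : {x : V // x ∈ K ∧ B.vt x ∉ D} => z.1) (Sum.inr_injective h6))
        refine Prod.ext ?_ ?_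
        · exact (he3 _ _ h5).1 ⟨⟨rfl, rfl⟩, hxy⟩
        · show cmp _ _ = cmp x y
          rw [he1.cmp_map_eq, Sum.Lex.inr_strictMono.cmp_map_eq]
          rfl

theorem ctD_congr (B : Bs V X Θ M) (D : Set Θ) (idx : Θ → ℕ) {x y x' y' : V}
    (hx : B.vt x' = B.vt x) (hy : B.vt y' = B.vt y)
    (h : B.vt x ∉ D → B.vt y ∉ D → B.ct x' y' = B.ct x y) :
    ctD B D idx x' y' = ctD B D idx x y := by
  unfold ctD
  rw [hx, hy]
  by_cases h1 : B.vt x ∈ D
  · rw [if_pos h1, if_pos h1]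
  · rw [if_neg h1, if_neg h1]
    by_cases h2 : B.vt y ∈ D
    · rw [if_pos h2, if_pos h2]
    · rw [if_neg h2, if_neg h2, h h1 h2]

end bld

theorem pf_BLD (hSYS : T_SYS) : T_BLD := by
  intro V X Θ _ M B D I Z _ h hh
  have hfT : Finite Θ := B.finT
  obtain ⟨N, ⟨eN⟩⟩ := Finite.exists_equiv_fin Θ
  let idx : Θ → ℕ := fun s => (eN s).val
  have hidx : Function.Injective idx := fun s t hst => eN.injective (Fin.ext hst)
  choose g hg1 hg2 using exists_g hSYS B D idx hidx
  have hfin : ∀ v w : I → V, (Set.range v ∪ Set.range w).Finite := fun v w =>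
    (Set.finite_range v).union (Set.finite_range w)
  let KK : (I → V) → (I → V) → Finset V := fun v w => (hfin v w).toFinset
  have hKv : ∀ v w i, v i ∈ KK v w := fun v w i =>
    (hfin v w).mem_toFinset.2 (Or.inl ⟨i, rfl⟩)
  have hKw : ∀ v w i, w i ∈ KK v w := fun v w i =>
    (hfin v w).mem_toFinset.2 (Or.inr ⟨i, rfl⟩)
  -- the comparison
  have key : ∀ (v w v' w' : I → V) (K K' : Finset V), (∀ i, v i ∈ K) → (∀ i, w i ∈ K) →
      (∀ i, v' i ∈ K') → (∀ i, w' i ∈ K') → SameO B D (Sum.elim v w) (Sum.elim v' w') →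
      h (fun i => g K (v i)) (fun i => g K (w i)) =
        h (fun i => g K' (v' i)) (fun i => g K' (w' i)) := by
    intro v w v' w' K K' h1 h2 h3 h4 hs
    apply hh
    have hz : ∀ a, Sum.elim v w a ∈ K := by
      rintro (a | a)
      · exact h1 a
      · exact h2 a
    have hz' : ∀ a, Sum.elim v' w' a ∈ K' := by
      rintro (a | a)
      · exact h3 a
      · exact h4 a
    have e1 : Sum.elim (fun i => g K (v i)) (fun i => g K (w i)) =
        fun a => g K (Sum.elim v w a) := by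
      funext a
      rcases a with a | a <;> rfl
    have e2 : Sum.elim (fun i => g K' (v' i)) (fun i => g K' (w' i)) =
        fun a => g K' (Sum.elim v' w' a) := by
      funext a
      rcases a with a | a <;> rfl
    rw [e1, e2]
    refine sameO_of_ct fun a b => ?_
    rw [hg2 K' _ (hz' a) _ (hz' b), hg2 K _ (hz a) _ (hz b)]
    exact ctD_congr B D idx (hs.1 a) (hs.1 b) (hs.2 a b)
  refine ⟨fun v w => h (fun i => g (KK v w) (v i)) (fun i => g (KK v w) (w i)), ?_, ?_⟩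
  · intro v w v' w' hs
    exact key v w v' w' _ _ (hKv v w) (hKw v w) (hKv v' w') (hKw v' w') hs
  · intro K
    refine ⟨g K, hg1 K, ?_, ?_⟩
    · intro x hx y hy h1 h2
      rw [hg2 K x hx y hy]
      unfold ctD
      rw [if_neg h1, if_neg h2]
    · intro v w hv hw
      exact key v w v w _ _ (hKv v w) (hKw v w) hv hw ⟨fun _ => rfl, fun _ _ _ _ => rfl⟩

end Pool.Agent.H47.SO
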